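import Pool.Agent.Y354.DC3.Stm

/-!
# Project DC3: the regularity inequality
-/

set_option autoImplicit false

open Finset
open scoped Classical

namespace Pool.Agent.Y185.DC3

open Pool.Agent.Y354.DC3

theorem I_nonneg (p : Prop) : 0 ≤ I p := by
  unfold I
  split_ifs <;> norm_num

theorem E_mono {V : Type} [Fintype V] {μ : V → ℝ} {N : V → V → V → Prop} (hμ : ∀ v, 0 ≤ μ v)
    {k : ℕ} {F G : (Fin k → V) → ℝ} (h : ∀ x, (∀ i, 0 < μ (x i)) → F x ≤ G x) :
    E μ N k F ≤ E μ N k G := by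
  unfold E
  refine sum_le_sum fun x _ => ?_
  by_cases h0 : ∀ i, 0 < μ (x i)
  · exact mul_le_mul_of_nonneg_left (h x h0)
      (mul_nonneg (I_nonneg _) (prod_nonneg fun i _ => hμ _))
  · push Not at h0
    obtain ⟨i, hi⟩ := h0
    have h1 : ∏ i, μ (x i) = 0 := prod_eq_zero (mem_univ i) (le_antisymm hi (hμ _))
    rw [h1]
    simp

theorem E_add {V : Type} [Fintype V] (μ : V → ℝ) (N : V → V → V → Prop)
    (k : ℕ) (F G : (Fin k → V) → ℝ) :
    E μ N k (fun x => F x + G x) = E μ N k F + E μ N k G := by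
  unfold E
  rw [← sum_add_distrib]
  exact sum_congr rfl fun x _ => by ring

theorem E_mul {V : Type} [Fintype V] (μ : V → ℝ) (N : V → V → V → Prop)
    (k : ℕ) (c : ℝ) (F : (Fin k → V) → ℝ) :
    E μ N k (fun x => c * F x) = c * E μ N k F := by
  unfold E
  rw [mul_sum]
  exact sum_congr rfl fun x _ => by ring

theorem E_sum {V : Type} [Fintype V] (μ : V → ℝ) (N : V → V → V → Prop)
    (k : ℕ) {m : ℕ} (F : Fin m → (Fin k → V) → ℝ) :
    E μ N k (fun x => ∑ i, F i x) = ∑ i, E μ N k (F i) := by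
  unfold E
  rw [sum_comm]
  exact sum_congr rfl fun x _ => by rw [mul_sum]

theorem s_j4 (hEX : S_EX) (hT1 : S_T1) (hT2 : S_T2) : S_J4 := by
  intro V _ μ N hN hμ t ht k
  -- the left side of (1)
  have hA : E μ N (k + 1) (fun x => ∑ v, ∑ u, μ v * μ u * (S N x v u : ℝ)) ≤
      ((k : ℝ) + 1) * t * P μ N (k + 1) := by
    have h1 : E μ N (k + 1) (fun x => ∑ v, ∑ u, μ v * μ u * (S N x v u : ℝ)) ≤
        E μ N (k + 1) (fun _ => ((k : ℝ) + 1) * t * 1) := by
      refine E_mono hμ fun x hx => ?_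
      have h2 : ∑ v, ∑ u, μ v * μ u * (S N x v u : ℝ) = ∑ i, dg μ N (x i) := by
        unfold dg
        symm
        rw [sum_comm]
        refine sum_congr rfl fun v _ => ?_
        rw [sum_comm]
        refine sum_congr rfl fun u _ => ?_
        rw [← mul_sum]
        congr 1
        unfold S I
        rw [sum_boole]
      rw [h2]
      calc ∑ i, dg μ N (x i) ≤ ∑ i : Fin (k + 1), t := sum_le_sum fun i _ => ht _ (hx i)
        _ = ((k : ℝ) + 1) * t * 1 := by
          rw [sum_const, card_univ, Fintype.card_fin, nsmul_eq_mul]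
          push_cast
          ring
    refine h1.trans (le_of_eq ?_)
    rw [E_mul]
    rfl
  -- the pointwise inequality
  have hB : E μ N (k + 1) (fun x => ∑ v, ∑ u, μ v * μ u * I (Al N x v ∧ Al N x u ∧ Ad N x v u)) +
      1 / 2 * ∑ i : Fin (k + 1), E μ N (k + 1)
        (fun x => ∑ v, ∑ u, μ v * μ u * (tw N (rm x i) (x i) v u : ℝ)) ≤
      E μ N (k + 1) (fun x => ∑ v, ∑ u, μ v * μ u * (S N x v u : ℝ)) := by
    rw [← E_sum, ← E_mul, ← E_add]
    refine E_mono hμ fun x _ => ?_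
    have h3 : ∑ i : Fin (k + 1), ∑ v, ∑ u, μ v * μ u * (tw N (rm x i) (x i) v u : ℝ) =
        ∑ v, ∑ u, μ v * μ u * ∑ i : Fin (k + 1), (tw N (rm x i) (x i) v u : ℝ) := by
      rw [sum_comm]
      refine sum_congr rfl fun v _ => ?_
      rw [sum_comm]
      refine sum_congr rfl fun u _ => ?_
      rw [mul_sum]
    rw [h3, mul_sum, ← sum_add_distrib]
    refine sum_le_sum fun v _ => ?_
    rw [mul_sum, ← sum_add_distrib]
    refine sum_le_sum fun u _ => ?_
    have h4 := hT1 V N hN k x v u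
    have h5 : 2 * I (Al N x v ∧ Al N x u ∧ Ad N x v u) +
        ∑ i : Fin (k + 1), (tw N (rm x i) (x i) v u : ℝ) ≤ 2 * (S N x v u : ℝ) := by
      have h6 : (((if Al N x v ∧ Al N x u ∧ Ad N x v u then 2 else 0) +
        ∑ i : Fin (k + 1), tw N (rm x i) (x i) v u : ℕ) : ℝ) ≤ ((2 * S N x v u : ℕ) : ℝ) :=
        Nat.cast_le.2 h4
      push_cast at h6
      unfold I
      split_ifs at h6 ⊢ <;> linarith
    have h7 : 0 ≤ μ v * μ u := mul_nonneg (hμ v) (hμ u)
    nlinarith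
  have hC : ∀ i : Fin (k + 1), 5 / 3 * D μ N k ≤ E μ N (k + 1)
      (fun x => ∑ v, ∑ u, μ v * μ u * (tw N (rm x i) (x i) v u : ℝ)) := by
    intro i
    rw [hEX V μ N hN k i (fun y w => ∑ v, ∑ u, μ v * μ u * (tw N y w v u : ℝ))]
    unfold D
    rw [← E_mul]
    exact E_mono hμ fun y _ => hT2 V μ N hN hμ k y
  have hD : ((k : ℝ) + 1) * (5 / 3 * D μ N k) ≤ ∑ i : Fin (k + 1), E μ N (k + 1)
        (fun x => ∑ v, ∑ u, μ v * μ u * (tw N (rm x i) (x i) v u : ℝ)) := by
    calc ((k : ℝ) + 1) * (5 / 3 * D μ N k) = ∑ i : Fin (k + 1), 5 / 3 * D μ N k := by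
          rw [sum_const, card_univ, Fintype.card_fin, nsmul_eq_mul]
          push_cast
          ring
      _ ≤ _ := sum_le_sum fun i _ => hC i
  unfold Y
  linarith

end Pool.Agent.Y185.DC3
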